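import Pool.Agent.helper90.FN.Spec

/-!
Module DN of part A of the functional form of MP_5ae64c_pr: lower size bias inequality.
-/

set_option autoImplicit false

open scoped BigOperators Topology
open Filter MeasureTheory

namespace Pool.Agent.helper90.FN

open Finset
open Pool.Agent.helper72.UT (IsFor dep pth rt fors Reg lz)
open Pool.Agent.helper20.HP (ind HW W Par cc run lel lst lazyP tmix ustE height vol Setup CZ CP IsKer)

section DNlemmas

variable {V : Type} [Fintype V] [DecidableEq V]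

theorem DN_EF_mono (G : SimpleGraph V) (B : Finset V) (F F' : (V → V) → ℝ)
    (h : ∀ f ∈ fors G B, F f ≤ F' f) : EF G B F ≤ EF G B F' := by
  unfold EF
  exact div_le_div_of_nonneg_right (Finset.sum_le_sum h) (Nat.cast_nonneg _)

theorem DN_EF_congr (G : SimpleGraph V) (B : Finset V) (F F' : (V → V) → ℝ)
    (h : ∀ f ∈ fors G B, F f = F' f) : EF G B F = EF G B F' := by
  unfold EF
  rw [Finset.sum_congr rfl h]

theorem DN_EF_mul (G : SimpleGraph V) (B : Finset V) (c : ℝ) (F : (V → V) → ℝ) :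
    EF G B (fun f => c * F f) = c * EF G B F := by
  unfold EF
  rw [← Finset.mul_sum, mul_div_assoc]

theorem DN_EF_neg (G : SimpleGraph V) (B : Finset V) (F : (V → V) → ℝ) :
    EF G B (fun f => - F f) = - EF G B F := by
  unfold EF
  rw [Finset.sum_neg_distrib, neg_div]

theorem DN_EF_sub (G : SimpleGraph V) (B : Finset V) (F F' : (V → V) → ℝ) :
    EF G B (fun f => F f - F' f) = EF G B F - EF G B F' := by
  unfold EF
  rw [Finset.sum_sub_distrib, sub_div]

theorem DN_EF_sum {ι : Type} (G : SimpleGraph V) (B : Finset V) (s : Finset ι)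
    (F : ι → (V → V) → ℝ) :
    EF G B (fun f => ∑ i ∈ s, F i f) = ∑ i ∈ s, EF G B (F i) := by
  unfold EF
  rw [Finset.sum_comm, Finset.sum_div]

theorem DN_ind_nonneg (p : Prop) : 0 ≤ ind p := by
  classical
  unfold ind
  split_ifs
  · exact zero_le_one
  · exact le_refl 0

end DNlemmas

theorem DN (h1 : G1_stmt) (h3 : G3_stmt) (h4 : G4_stmt) (hd : DOM_stmt) (hm : HM_stmt)
    (hs : HS_stmt) (hg : HG_stmt) : DN_stmt := by
  classical
  intro V _ _ G C ℓ r w b lam hG hC hb hlam
  obtain ⟨h4a, h4b, -, -, -⟩ := h4 V G C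
  set K : ℝ := EF G C (fun f => Real.exp (-(lam * HB C C ℓ r w b f))) with hK
  -- one vertex
  have key : ∀ v : V, Real.exp (-(lam * b)) * K * EF G C (fun f =>
      ind (v ∉ C ∧ rt C f v ∈ C ∧ r ≤ lv C ℓ f v ∧ lv C ℓ f v < r + w)) ≤
      EF G C (fun f => ind (v ∉ C ∧ rt C f v ∈ C ∧ r ≤ lv C ℓ f v ∧ lv C ℓ f v < r + w) *
        Real.exp (-(lam * HB C C ℓ r w b f))) := by
    intro v
    have hR := h3 V G C (fun f => dn C f v) (fun f hf => h4a v f hf)
      (fun f hf f' hf' h => (h4b v f hf f' hf' h).1)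
      (fun f => ind (v ∉ C ∧ rt C f v ∈ C ∧ r ≤ lv C ℓ f v ∧ lv C ℓ f v < r + w) *
        Real.exp (-(lam * HB C C ℓ r w b f)))
    rw [hR, ← DN_EF_mul]
    apply DN_EF_mono
    intro f hf
    have hcl : Cl C (dn C f v) f := h4a v f hf
    have hsame : ∀ g ∈ fors G (dn C f v),
        ind (v ∉ C ∧ rt C (glue (dn C f v) f g) v ∈ C ∧ r ≤ lv C ℓ (glue (dn C f v) f g) v ∧
          lv C ℓ (glue (dn C f v) f g) v < r + w) =
        ind (v ∉ C ∧ rt C f v ∈ C ∧ r ≤ lv C ℓ f v ∧ lv C ℓ f v < r + w) := by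
      intro g hg'
      obtain ⟨hgl, -, -, -⟩ := h1 V G C (dn C f v) f g hf hcl hg'
      have hag : ∀ x ∈ dn C f v, glue (dn C f v) f g x = f x := by
        intro x hx
        unfold glue
        rw [if_pos hx]
      obtain ⟨-, -, hrt, hdep⟩ := h4b v f hf _ hgl hag
      unfold lv
      rw [hrt, hdep]
    by_cases hv : v ∈ C
    · have h0 : ∀ f' : V → V, ind (v ∉ C ∧ rt C f' v ∈ C ∧ r ≤ lv C ℓ f' v ∧
          lv C ℓ f' v < r + w) = 0 := by
        intro f'
        unfold ind
        rw [if_neg]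
        rintro ⟨h, -⟩
        exact h hv
      rw [h0, mul_zero]
      have h5 : EF G (dn C f v) (fun g => ind (v ∉ C ∧ rt C (glue (dn C f v) f g) v ∈ C ∧
          r ≤ lv C ℓ (glue (dn C f v) f g) v ∧ lv C ℓ (glue (dn C f v) f g) v < r + w) *
          Real.exp (-(lam * HB C C ℓ r w b (glue (dn C f v) f g)))) =
          EF G (dn C f v) (fun _ => 0 * 1) := by
        apply DN_EF_congr
        intro g _
        rw [h0, zero_mul, zero_mul]
      rw [h5, DN_EF_mul, zero_mul]
    · have h5 : ind (v ∉ C ∧ rt C f v ∈ C ∧ r ≤ lv C ℓ f v ∧ lv C ℓ f v < r + w) *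
          (Real.exp (-(lam * b)) * EF G (dn C f v) (fun g =>
            Real.exp (-(lam * HB (dn C f v) C ℓ r w b g)))) ≤
          EF G (dn C f v) (fun g => ind (v ∉ C ∧ rt C (glue (dn C f v) f g) v ∈ C ∧
          r ≤ lv C ℓ (glue (dn C f v) f g) v ∧ lv C ℓ (glue (dn C f v) f g) v < r + w) *
          Real.exp (-(lam * HB C C ℓ r w b (glue (dn C f v) f g)))) := by
        rw [← DN_EF_mul, ← DN_EF_mul]
        apply DN_EF_mono
        intro g hg'
        rw [hsame g hg']
        apply mul_le_mul_of_nonneg_left _ (DN_ind_nonneg _)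
        rw [← Real.exp_add]
        apply Real.exp_le_exp.2
        have h6 := hg V G C f g v ℓ r w b hb.le hf hv hg'
        nlinarith
      have h7 : K ≤ EF G (dn C f v) (fun g => Real.exp (-(lam * HB (dn C f v) C ℓ r w b g))) := by
        have h8 := hd V G C (fun R f => - Real.exp (-(lam * HB R C ℓ r w b f))) hC hG
          (by
            intro R R' f₁ f₂ hR hR' hf₁ hf₂ hh
            have h9 := hm V G C R R' f₁ f₂ ℓ r w b hb.le hR hR' hf₁ hf₂ hh
            apply neg_le_neg
            apply Real.exp_le_exp.2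
            nlinarith)
          C (dn C f v) (Finset.Subset.refl C) hcl.sub
        have h10 : EF G (dn C f v) (fun g => - Real.exp (-(lam * HB (dn C f v) C ℓ r w b g))) ≤
            EF G C (fun g => - Real.exp (-(lam * HB C C ℓ r w b g))) := h8
        rw [DN_EF_neg, DN_EF_neg] at h10
        linarith
      calc Real.exp (-(lam * b)) * K *
            ind (v ∉ C ∧ rt C f v ∈ C ∧ r ≤ lv C ℓ f v ∧ lv C ℓ f v < r + w)
          = ind (v ∉ C ∧ rt C f v ∈ C ∧ r ≤ lv C ℓ f v ∧ lv C ℓ f v < r + w) *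
            (Real.exp (-(lam * b)) * K) := by ring
        _ ≤ ind (v ∉ C ∧ rt C f v ∈ C ∧ r ≤ lv C ℓ f v ∧ lv C ℓ f v < r + w) *
          (Real.exp (-(lam * b)) * EF G (dn C f v) (fun g =>
            Real.exp (-(lam * HB (dn C f v) C ℓ r w b g)))) := by
            apply mul_le_mul_of_nonneg_left _ (DN_ind_nonneg _)
            exact mul_le_mul_of_nonneg_left h7 (Real.exp_pos _).le
        _ ≤ _ := h5
  -- sum over the vertices
  have hsum : Real.exp (-(lam * b)) * EF G C (nb C C ℓ r w) * K ≤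
      EF G C (fun f => nb C C ℓ r w f * Real.exp (-(lam * HB C C ℓ r w b f))) := by
    have e1 : EF G C (nb C C ℓ r w) = ∑ v, EF G C (fun f =>
        ind (v ∉ C ∧ rt C f v ∈ C ∧ r ≤ lv C ℓ f v ∧ lv C ℓ f v < r + w)) := by
      rw [← DN_EF_sum]
      rfl
    have e2 : EF G C (fun f => nb C C ℓ r w f * Real.exp (-(lam * HB C C ℓ r w b f))) =
        ∑ v, EF G C (fun f =>
        ind (v ∉ C ∧ rt C f v ∈ C ∧ r ≤ lv C ℓ f v ∧ lv C ℓ f v < r + w) *
          Real.exp (-(lam * HB C C ℓ r w b f))) := by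
      rw [← DN_EF_sum]
      apply DN_EF_congr
      intro f _
      unfold nb
      rw [Finset.sum_mul]
    rw [e1, e2]
    calc Real.exp (-(lam * b)) * (∑ v, EF G C (fun f =>
        ind (v ∉ C ∧ rt C f v ∈ C ∧ r ≤ lv C ℓ f v ∧ lv C ℓ f v < r + w))) * K
        = ∑ v, Real.exp (-(lam * b)) * K * EF G C (fun f =>
        ind (v ∉ C ∧ rt C f v ∈ C ∧ r ≤ lv C ℓ f v ∧ lv C ℓ f v < r + w)) := by
          rw [Finset.mul_sum, Finset.sum_mul]
          apply Finset.sum_congr rfl
          intro v _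
          ring
      _ ≤ _ := Finset.sum_le_sum (fun v _ => key v)
  -- pointwise comparison
  have hpt : EF G C (fun f => nb C C ℓ r w f * Real.exp (-(lam * HB C C ℓ r w b f)) -
      exc C ℓ r w b f) ≤
      EF G C (fun f => HB C C ℓ r w b f * Real.exp (-(lam * HB C C ℓ r w b f))) := by
    apply DN_EF_mono
    intro f hf
    obtain ⟨-, hH0, -, hlow, hexc, -, -⟩ := hs V G C f ℓ r w b hb hf
    have hE1 : Real.exp (-(lam * HB C C ℓ r w b f)) ≤ 1 := by
      rw [Real.exp_le_one_iff]
      have := mul_nonneg hlam hH0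
      linarith
    have hE0 : 0 ≤ Real.exp (-(lam * HB C C ℓ r w b f)) := (Real.exp_pos _).le
    have h11 : (nb C C ℓ r w f - exc C ℓ r w b f) * Real.exp (-(lam * HB C C ℓ r w b f)) ≤
        HB C C ℓ r w b f * Real.exp (-(lam * HB C C ℓ r w b f)) :=
      mul_le_mul_of_nonneg_right hlow hE0
    have h12 : exc C ℓ r w b f * Real.exp (-(lam * HB C C ℓ r w b f)) ≤ exc C ℓ r w b f :=
      mul_le_of_le_one_right hexc hE1
    have h13 : nb C C ℓ r w f * Real.exp (-(lam * HB C C ℓ r w b f)) -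
        exc C ℓ r w b f * Real.exp (-(lam * HB C C ℓ r w b f)) ≤
        HB C C ℓ r w b f * Real.exp (-(lam * HB C C ℓ r w b f)) := by
      rw [← sub_mul]
      exact h11
    linarith
  rw [DN_EF_sub] at hpt
  linarith

end Pool.Agent.helper90.FN
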